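import Pool.Agent.Helper26.LU.Goals

/-! Packet LU-T1c (MP_db6300_gt): density of smooth functions on the sphere. -/

set_option autoImplicit false

namespace Pool.Agent.Helper55.LU

open Pool.Agent.Helper26.LU
open Matrix Topology

theorem isCompact_sphere : IsCompact sph := by
  refine Metric.isCompact_of_isClosed_isBounded ?_ ?_
  · exact isClosed_eq (by fun_prop) continuous_const
  · refine (Metric.isBounded_closedBall (x := (0 : V)) (r := 1)).subset fun u hu => ?_
    rw [mem_closedBall_zero_iff]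
    exact sph_norm_le hu

/-- restrictions to the sphere of `C¹` functions -/
noncomputable def smoothAlg : Subalgebra ℝ C(↥sph, ℝ) where
  carrier := {f | ∃ g' : V → ℝ, ContDiff ℝ 1 g' ∧ ∀ u : ↥sph, f u = g' u.1}
  mul_mem' := by
    rintro a b ⟨ga, ha, ha'⟩ ⟨gb, hb, hb'⟩
    refine ⟨fun x => ga x * gb x, ha.mul hb, fun u => ?_⟩
    rw [ContinuousMap.mul_apply, ha' u, hb' u]
  add_mem' := by
    rintro a b ⟨ga, ha, ha'⟩ ⟨gb, hb, hb'⟩
    refine ⟨fun x => ga x + gb x, ha.add hb, fun u => ?_⟩
    rw [ContinuousMap.add_apply, ha' u, hb' u]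
  algebraMap_mem' := by
    intro r
    refine ⟨fun _ => r, contDiff_const, fun u => ?_⟩
    simp

theorem smoothAlg_separates : smoothAlg.SeparatesPoints := by
  intro x y hxy
  have h : ∃ i : Fin 3, x.1 i ≠ y.1 i := by
    by_contra hcon
    push Not at hcon
    exact hxy (Subtype.ext (funext hcon))
  obtain ⟨i, hi⟩ := h
  refine ⟨fun u => u.1 i, ⟨⟨fun u => u.1 i, (continuous_apply i).comp continuous_subtype_val⟩,
    ⟨fun v => v i, ?_, fun u => rfl⟩, rfl⟩, hi⟩
  fun_prop

theorem gT1c : Pool.Agent.Helper26.LU.G_T1c := by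
  intro g hg ε hε
  have : CompactSpace ↥sph := isCompact_iff_compactSpace.1 isCompact_sphere
  have hc : Continuous (fun u : ↥sph => g u.1) := continuousOn_iff_continuous_domRestrict.1 hg
  obtain ⟨⟨f, g', hg', hf⟩, hb⟩ :=
    ContinuousMap.exists_mem_subalgebra_near_continuous_of_separatesPoints
      smoothAlg smoothAlg_separates (fun u : ↥sph => g u.1) hc ε hε
  refine ⟨g', hg', fun u hu => ?_⟩
  have h1 := hb ⟨u, hu⟩
  have h2 := hf ⟨u, hu⟩
  simp only at h1
  rw [h2, Real.norm_eq_abs, abs_sub_comm] at h1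
  exact h1.le

end Pool.Agent.Helper55.LU
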